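import Mathlib

/-!
# Zeros of exponential sums
-/

set_option autoImplicit false

namespace Pool.Agent.X249.HC

open Finset Polynomial

theorem signVariations_lt_card {P : ℝ[X]} (hP : P ≠ 0) : P.signVariations < #P.support := by
  induction h : #P.support generalizing P with
  | zero =>
    rw [card_eq_zero, Polynomial.support_eq_empty] at h
    exact absurd h hP
  | succ k ih =>
    by_cases h0 : P.eraseLead = 0
    · have h1 : P = monomial P.natDegree P.leadingCoeff := by
        have := P.eraseLead_add_monomial_natDegree_leadingCoeff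
        rw [h0, zero_add] at this
        exact this.symm
      rw [h1, signVariations_monomial]
      exact Nat.succ_pos _
    · have h1 : #P.eraseLead.support = k := by
        rw [card_support_eraseLead, h]
        rfl
      have h2 := ih h0 h1
      have h3 := signVariations_le_eraseLead_succ P
      omega

/-- A polynomial with few terms has few positive roots. -/
theorem card_pos_roots {P : ℝ[X]} (hP : P ≠ 0) {V : Finset ℝ} (hV : ∀ v ∈ V, 0 < v)
    (h : ∀ v ∈ V, P.eval v = 0) : #V < #P.support := by
  have h1 := P.roots_countP_pos_le_signVariations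
  have h2 : V.val ≤ P.roots.filter (0 < ·) := by
    rw [Multiset.le_iff_subset V.nodup]
    intro v hv
    rw [Multiset.mem_filter, mem_roots hP]
    exact ⟨h v hv, hV v hv⟩
  have h3 := Multiset.card_le_card h2
  rw [← Multiset.countP_eq_card_filter] at h3
  have h4 : #V = Multiset.card V.val := rfl
  have := signVariations_lt_card hP
  omega

/-- An exponential sum with positive bases has few zeros. -/
theorem card_zeros {V : Finset ℝ} (hV : ∀ v ∈ V, 0 < v) {t : ℝ → ℝ} (ht : ∃ v ∈ V, t v ≠ 0)
    {Z : Finset ℕ} (hZ : ∀ m ∈ Z, ∑ v ∈ V, t v * v ^ m = 0) : #Z < #V := by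
  classical
  by_contra hcon
  obtain ⟨Z', hZ', hcard⟩ := exists_subset_card_eq (not_lt.1 hcon)
  obtain ⟨e⟩ : Nonempty (V ≃ Z') := by
    rw [← Fintype.card_eq]
    simp [hcard]
  let M : Matrix V V ℝ := fun v w => (v : ℝ) ^ ((e w : ℕ))
  have h1 : ∃ u, u ≠ 0 ∧ Matrix.vecMul u M = 0 := by
    refine ⟨fun v => t v, ?_, ?_⟩
    · obtain ⟨v, hv, htv⟩ := ht
      intro h
      exact htv (congrFun h ⟨v, hv⟩)
    · ext w
      simp only [Matrix.vecMul, dotProduct, M, Pi.zero_apply]
      have := hZ _ (hZ' (e w).2)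
      rw [← this, ← sum_coe_sort V (fun v => t v * v ^ (e w : ℕ))]
  have h2 : M.det = 0 := Matrix.exists_vecMul_eq_zero_iff.1 h1
  obtain ⟨c, hc, hMc⟩ := Matrix.exists_mulVec_eq_zero_iff.2 h2
  let P : ℝ[X] := ∑ w : V, monomial (e w : ℕ) (c w)
  have hcoeff : ∀ w, P.coeff (e w : ℕ) = c w := by
    intro w
    simp only [P, finsetSum_coeff, coeff_monomial]
    rw [sum_eq_single w]
    · simp
    · intro w' _ hne
      rw [if_neg]
      intro h
      exact hne (e.injective (Subtype.ext h))
    · simp
  have hP : P ≠ 0 := by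
    intro h
    apply hc
    ext w
    have := hcoeff w
    rw [h, coeff_zero] at this
    exact this.symm
  have hsupp : #P.support ≤ #V := by
    have h3 : P.support ⊆ Z' := by
      intro m hm
      rw [mem_support_iff] at hm
      by_contra hmZ
      apply hm
      simp only [P, finsetSum_coeff, coeff_monomial]
      refine sum_eq_zero (fun w _ => if_neg ?_)
      intro h
      exact hmZ (h ▸ (e w).2)
    exact (card_le_card h3).trans hcard.le
  have hroot : ∀ v ∈ V, P.eval v = 0 := by
    intro v hv
    have := congrFun hMc ⟨v, hv⟩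
    simp only [Matrix.mulVec, dotProduct, M, Pi.zero_apply] at this
    simp only [P, eval_finsetSum, eval_monomial]
    rw [← this]
    exact sum_congr rfl (fun w _ => mul_comm _ _)
  have := card_pos_roots hP hV hroot
  omega

/-- Many variables. -/
theorem card_zeros_multi (M B : ℕ) : ∀ (d : ℕ) (P : Finset (Fin d → ℕ)) (κ : (Fin d → ℕ) → ℝ),
    (∀ p ∈ P, ∀ j, 0 < p j) → (∃ p ∈ P, κ p ≠ 0) → (∀ j, #(P.image (fun p => p j)) ≤ B) →
    #{m : Fin d → Fin M | ∑ p ∈ P, κ p * ∏ j, ((p j : ℕ) : ℝ) ^ ((m j : ℕ)) = 0} * M ≤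
      d * B * M ^ d := by
  classical
  intro d
  induction d with
  | zero =>
    intro P κ _ hne _
    obtain ⟨p, hp, hκ⟩ := hne
    have h1 : P = {p} := by
      ext q
      rw [mem_singleton]
      constructor
      · intro _; exact Subsingleton.elim _ _
      · rintro rfl; exact hp
    have h2 : #{m : Fin 0 → Fin M | ∑ p ∈ P, κ p * ∏ j, ((p j : ℕ) : ℝ) ^ ((m j : ℕ)) = 0} = 0 := by
      rw [card_eq_zero, filter_eq_empty_iff]
      intro m _
      rw [h1, sum_singleton]
      simpa using hκ
    rw [h2]
    simp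
  | succ d ih =>
    intro P κ hpos hne hB
    obtain ⟨ps, hps, hκ⟩ := hne
    -- the points with the first coordinate of `ps`
    let P' : Finset (Fin d → ℕ) := (P.filter (fun p => p 0 = ps 0)).image (fun p => Fin.tail p)
    let κ' : (Fin d → ℕ) → ℝ := fun p' => κ (Fin.cons (ps 0) p')
    have htail : ∀ p ∈ P.filter (fun p => p 0 = ps 0), Fin.cons (ps 0) (Fin.tail p) = p := by
      intro p hp
      rw [← (mem_filter.1 hp).2]
      exact Fin.cons_self_tail p
    have hT := ih P' κ' (by
        intro p' hp' j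
        obtain ⟨p, hp, rfl⟩ := mem_image.1 hp'
        exact hpos p (mem_filter.1 hp).1 _)
      ⟨Fin.tail ps, mem_image.2 ⟨ps, mem_filter.2 ⟨hps, rfl⟩, rfl⟩, by
        simp only [κ']
        rw [Fin.cons_self_tail]
        exact hκ⟩
      (by
        intro j
        refine (card_le_card ?_).trans (hB j.succ)
        intro v hv
        obtain ⟨p', hp', rfl⟩ := mem_image.1 hv
        obtain ⟨p, hp, rfl⟩ := mem_image.1 hp'
        exact mem_image.2 ⟨p, (mem_filter.1 hp).1, rfl⟩)
    set Zd := ({m : Fin d → Fin M | ∑ p ∈ P', κ' p * ∏ j, ((p j : ℕ) : ℝ) ^ ((m j : ℕ)) = 0} :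
      Finset (Fin d → Fin M)) with hZd
    -- the sum over the points with a given first coordinate
    let T : (Fin d → Fin M) → ℝ → ℝ := fun m' v =>
      ∑ p ∈ P.filter (fun p => ((p 0 : ℕ) : ℝ) = v), κ p * ∏ j : Fin d, ((p j.succ : ℕ) : ℝ) ^ (m' j : ℕ)
    have hT0 : ∀ m', T m' (ps 0 : ℕ) = ∑ p ∈ P', κ' p * ∏ j, ((p j : ℕ) : ℝ) ^ ((m' j : ℕ)) := by
      intro m'
      simp only [T, P']
      rw [sum_image]
      · refine sum_congr ?_ (fun p hp => ?_)
        · ext p
          simp
        · simp only [κ']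
          rw [htail p (by simpa using hp)]
          rfl
      · intro p hp q hq hpq
        simp only at hpq
        rw [← htail p hp, ← htail q hq, hpq]
    have hsum : ∀ m : Fin (d + 1) → Fin M, ∑ p ∈ P, κ p * ∏ j, ((p j : ℕ) : ℝ) ^ ((m j : ℕ)) =
        ∑ v ∈ P.image (fun p => ((p 0 : ℕ) : ℝ)), T (Fin.tail m) v * v ^ ((m 0 : ℕ)) := by
      intro m
      rw [← sum_fiberwise_of_maps_to (g := fun p => ((p 0 : ℕ) : ℝ))
        (t := P.image (fun p => ((p 0 : ℕ) : ℝ))) (fun p hp => mem_image_of_mem _ hp)]
      refine sum_congr rfl (fun v _ => ?_)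
      simp only [T]
      rw [sum_mul]
      refine sum_congr rfl (fun p hp => ?_)
      rw [Fin.prod_univ_succ, (mem_filter.1 hp).2]
      simp only [Fin.tail]
      ring
    have hcardV : #(P.image (fun p => ((p 0 : ℕ) : ℝ))) ≤ B := by
      have : P.image (fun p => ((p 0 : ℕ) : ℝ)) = (P.image (fun p => p 0)).image (fun x : ℕ => (x : ℝ)) := by
        rw [image_image]; rfl
      rw [this]
      exact card_image_le.trans (hB 0)
    -- counting
    have hfib : ∀ m' : Fin d → Fin M, m' ∉ Zd →
        #{x : Fin M | ∑ p ∈ P, κ p * ∏ j, ((p j : ℕ) : ℝ) ^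
          (((Fin.cons x m' : Fin (d + 1) → Fin M) j : ℕ)) = 0} ≤ B := by
      intro m' hm'
      have h1 : #(({x : Fin M | ∑ p ∈ P, κ p * ∏ j, ((p j : ℕ) : ℝ) ^
          (((Fin.cons x m' : Fin (d + 1) → Fin M) j : ℕ)) = 0} : Finset (Fin M)).map
          Fin.valEmbedding) < #(P.image (fun p => ((p 0 : ℕ) : ℝ))) := by
        apply card_zeros (t := T m')
        · intro v hv
          obtain ⟨p, hp, rfl⟩ := mem_image.1 hv
          exact_mod_cast hpos p hp 0
        · refine ⟨_, mem_image_of_mem _ hps, ?_⟩
          rw [hT0]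
          intro h
          exact hm' (by rw [hZd, mem_filter]; exact ⟨mem_univ _, h⟩)
        · intro x hx
          obtain ⟨x, hx', rfl⟩ := mem_map.1 hx
          have h2 := (mem_filter.1 hx').2
          rw [hsum] at h2
          simpa using h2
      rw [card_map] at h1
      omega
    have hinj : #{m : Fin (d + 1) → Fin M | ∑ p ∈ P, κ p * ∏ j, ((p j : ℕ) : ℝ) ^ ((m j : ℕ)) = 0} ≤
        ∑ m' : Fin d → Fin M, #{x : Fin M | ∑ p ∈ P, κ p * ∏ j, ((p j : ℕ) : ℝ) ^
          (((Fin.cons x m' : Fin (d + 1) → Fin M) j : ℕ)) = 0} := by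
      rw [card_eq_sum_card_fiberwise (f := fun m : Fin (d + 1) → Fin M => (Fin.tail m : Fin d → Fin M))
        (t := univ) (fun _ _ => mem_coe.2 (mem_univ _))]
      refine sum_le_sum (fun m' _ => ?_)
      apply card_le_card_of_injOn (fun m => m 0)
      · intro m hm
        simp only [coe_filter, mem_filter, mem_univ, true_and, Set.mem_ofPred_eq] at hm ⊢
        rw [← hm.2]
        simp only [Fin.cons_self_tail]
        exact hm.1
      · intro m hm q hq hmq
        simp only [coe_filter, mem_filter, mem_univ, true_and, Set.mem_ofPred_eq] at hm hq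
        rw [← Fin.cons_self_tail m, ← Fin.cons_self_tail q, hm.2, hq.2]
        simp only at hmq
        rw [hmq]
    have hbound : ∑ m' : Fin d → Fin M, #{x : Fin M | ∑ p ∈ P, κ p * ∏ j, ((p j : ℕ) : ℝ) ^
          (((Fin.cons x m' : Fin (d + 1) → Fin M) j : ℕ)) = 0} ≤ #Zd * M + M ^ d * B := by
      calc _ ≤ ∑ m' : Fin d → Fin M, ((if m' ∈ Zd then M else 0) + B) := by
            refine sum_le_sum (fun m' _ => ?_)
            by_cases hm' : m' ∈ Zd
            · rw [if_pos hm']
              refine (card_le_univ _).trans ?_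
              rw [Fintype.card_fin]
              omega
            · rw [if_neg hm', zero_add]
              exact hfib m' hm'
        _ = #Zd * M + M ^ d * B := by
            rw [sum_add_distrib, ← sum_filter, sum_const, sum_const, smul_eq_mul, smul_eq_mul]
            congr 2
            · congr 1
              ext m'
              simp
            · rw [card_univ, Fintype.card_fun, Fintype.card_fin, Fintype.card_fin]
    calc _ ≤ (#Zd * M + M ^ d * B) * M := Nat.mul_le_mul_right _ (hinj.trans hbound)
      _ = (#Zd * M) * M + B * M ^ (d + 1) := by rw [pow_succ]; ring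
      _ ≤ (d * B * M ^ d) * M + B * M ^ (d + 1) :=
          Nat.add_le_add_right (Nat.mul_le_mul_right _ hT) _
      _ = (d + 1) * B * M ^ (d + 1) := by rw [pow_succ]; ring

end Pool.Agent.X249.HC
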