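import Mathlib

/-!
# Graphs made of paths, and the number of their homomorphisms
-/

set_option autoImplicit false

namespace Pool.Agent.X249.HC

open Finset

/-- The number of homomorphisms. -/
noncomputable def hom {V W : Type} (F : SimpleGraph W) (G : SimpleGraph V) : ℕ := Nat.card (F →g G)

/-- The positions on a path from `a` to `b` with the inner vertices `g`. -/
def ext {V : Type} {l : ℕ} (a : V) (g : Fin l → V) (b : V) : Fin (l + 2) → V :=
  Fin.cons a (Fin.snoc g b : Fin (l + 1) → V)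

/-- `g` are the inner vertices of a walk from `a` to `b`. -/
def IsPth {V : Type} (G : SimpleGraph V) {l : ℕ} (a : V) (g : Fin l → V) (b : V) : Prop :=
  ∀ i : Fin (l + 1), G.Adj (ext a g b i.castSucc) (ext a g b i.succ)

theorem isPth_zero {V : Type} (G : SimpleGraph V) (a : V) (g : Fin 0 → V) (b : V) :
    IsPth G a g b ↔ G.Adj a b := by
  unfold IsPth
  constructor
  · intro h
    have := h 0
    simpa [ext, Fin.snoc] using this
  · intro h i
    have hi : i = 0 := Fin.fin_one_eq_zero i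
    subst hi
    simpa [ext, Fin.snoc] using h

theorem isPth_succ {V : Type} (G : SimpleGraph V) {l : ℕ} (a c : V) (g : Fin l → V) (b : V) :
    IsPth G a (Fin.cons c g : Fin (l + 1) → V) b ↔ G.Adj a c ∧ IsPth G c g b := by
  have h1 : ext a (Fin.cons c g : Fin (l + 1) → V) b = Fin.cons a (ext c g b) := by
    unfold ext
    congr 1
    rw [Fin.cons_snoc_eq_snoc_cons]
  unfold IsPth
  rw [h1, Fin.forall_fin_succ]
  refine and_congr ?_ (forall_congr' (fun i => ?_))
  · rfl
  · rfl

theorem card_pth {V : Type} [Fintype V] [DecidableEq V] (G : SimpleGraph V) [DecidableRel G.Adj]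
    (l : ℕ) : ∀ a b : V, Nat.card {g : Fin l → V // IsPth G a g b} =
      ((G.adjMatrix ℕ) ^ (l + 1)) a b := by
  classical
  induction l with
  | zero =>
    intro a b
    rw [zero_add, pow_one, SimpleGraph.adjMatrix_apply]
    by_cases h : G.Adj a b
    · rw [if_pos h, Nat.card_eq_one_iff_unique]
      exact ⟨⟨fun x y => Subtype.ext (Subsingleton.elim _ _)⟩,
        ⟨⟨Fin.elim0, (isPth_zero G a _ b).2 h⟩⟩⟩
    · rw [if_neg h]
      have : IsEmpty {g : Fin 0 → V // IsPth G a g b} :=
        ⟨fun g => h ((isPth_zero G a g.1 b).1 g.2)⟩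
      exact Nat.card_of_isEmpty
  | succ l ih =>
    intro a b
    rw [pow_succ', Matrix.mul_apply]
    let e : {g : Fin (l + 1) → V // IsPth G a g b} ≃
        Σ c : V, {g : Fin l → V // G.Adj a c ∧ IsPth G c g b} :=
      { toFun := fun g => ⟨g.1 0, Fin.tail g.1, by
          have h := g.2
          rw [← Fin.cons_self_tail g.1, isPth_succ] at h
          exact h⟩
        invFun := fun x => ⟨Fin.cons x.1 x.2.1, (isPth_succ G a x.1 x.2.1 b).2 x.2.2⟩
        left_inv := fun g => Subtype.ext (Fin.cons_self_tail g.1)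
        right_inv := fun x => rfl }
    rw [Nat.card_congr e, Nat.card_sigma]
    refine sum_congr rfl (fun c _ => ?_)
    rw [SimpleGraph.adjMatrix_apply]
    by_cases h : G.Adj a c
    · rw [if_pos h, one_mul, ← ih c b]
      apply Nat.card_congr
      exact Equiv.subtypeEquivRight (fun g => and_iff_right h)
    · rw [if_neg h, zero_mul]
      have : IsEmpty {g : Fin l → V // G.Adj a c ∧ IsPth G c g b} := ⟨fun g => h g.2.1⟩
      exact Nat.card_of_isEmpty

/-! ### The graphs -/

section graph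

variable {κ Q : Type} (src tgt : Q → κ) (ln : Q → ℕ)

/-- The vertices on the path `q`. -/
def pos (q : Q) : Fin (ln q + 2) → κ ⊕ (Σ q : Q, Fin (ln q)) :=
  ext (Sum.inl (src q)) (fun i => Sum.inr ⟨q, i⟩) (Sum.inl (tgt q))

/-- The core vertices `κ`, joined by the paths `q : Q` with `ln q` inner vertices. -/
def pathGraph : SimpleGraph (κ ⊕ (Σ q : Q, Fin (ln q))) where
  Adj x y := x ≠ y ∧ ∃ (q : Q) (i : Fin (ln q + 1)),
    (x = pos src tgt ln q i.castSucc ∧ y = pos src tgt ln q i.succ) ∨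
    (y = pos src tgt ln q i.castSucc ∧ x = pos src tgt ln q i.succ)
  symm := ⟨fun x y h => ⟨h.1.symm, by
    obtain ⟨-, q, i, h⟩ := h
    exact ⟨q, i, h.symm⟩⟩⟩
  loopless := ⟨fun x h => h.1 rfl⟩

theorem pos_ne (q : Q) (hq : 1 ≤ ln q) (i : Fin (ln q + 1)) :
    pos src tgt ln q i.castSucc ≠ pos src tgt ln q i.succ := by
  unfold pos ext
  rw [Fin.cons_succ]
  refine Fin.cases ?_ (fun j => ?_) i
  · rw [Fin.castSucc_zero, Fin.cons_zero]
    obtain ⟨l, hl⟩ : ∃ l, ln q = l + 1 := ⟨ln q - 1, by omega⟩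
    intro h
    have h0 : (0 : Fin (ln q + 1)) = Fin.castSucc (⟨0, by omega⟩ : Fin (ln q)) := rfl
    rw [h0, Fin.snoc_castSucc] at h
    exact absurd h (by simp)
  · have h1 : (j.succ : Fin (ln q + 1)).castSucc = j.castSucc.succ := rfl
    rw [h1, Fin.cons_succ, Fin.snoc_castSucc]
    by_cases h2 : (j : ℕ) + 1 < ln q
    · have h3 : (j.succ : Fin (ln q + 1)) = Fin.castSucc (⟨j + 1, h2⟩ : Fin (ln q)) := rfl
      rw [h3, Fin.snoc_castSucc]
      intro h
      simp only [Sum.inr.injEq, Sigma.mk.injEq, heq_eq_eq, true_and] at h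
      have := congrArg Fin.val h
      simp at this
    · have h3 : (j.succ : Fin (ln q + 1)) = Fin.last _ := by
        ext
        simp only [Fin.val_succ, Fin.val_last]
        have := j.2
        omega
      rw [h3, Fin.snoc_last]
      simp

theorem hom_iff {V : Type} (G : SimpleGraph V) (hln : ∀ q, 1 ≤ ln q)
    (f : κ ⊕ (Σ q : Q, Fin (ln q)) → V) :
    (∀ x y, (pathGraph src tgt ln).Adj x y → G.Adj (f x) (f y)) ↔
      ∀ q, IsPth G (f (Sum.inl (src q))) (fun i => f (Sum.inr ⟨q, i⟩)) (f (Sum.inl (tgt q))) := by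
  have hpos : ∀ q i, f (pos src tgt ln q i) =
      ext (f (Sum.inl (src q))) (fun i => f (Sum.inr ⟨q, i⟩)) (f (Sum.inl (tgt q))) i := by
    intro q i
    unfold pos ext
    refine Fin.cases rfl (fun j => ?_) i
    rw [Fin.cons_succ, Fin.cons_succ]
    refine Fin.lastCases ?_ (fun k => ?_) j
    · rw [Fin.snoc_last, Fin.snoc_last]
    · rw [Fin.snoc_castSucc, Fin.snoc_castSucc]
  constructor
  · intro h q i
    rw [← hpos, ← hpos]
    exact h _ _ ⟨pos_ne src tgt ln q (hln q) i, q, i, Or.inl ⟨rfl, rfl⟩⟩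
  · rintro h x y ⟨-, q, i, ⟨rfl, rfl⟩ | ⟨rfl, rfl⟩⟩
    · rw [hpos, hpos]
      exact h q i
    · rw [hpos, hpos]
      exact (h q i).symm

/-- The number of homomorphisms is a sum over the maps of the core of products of numbers of
walks. -/
theorem hom_pathGraph [Fintype κ] [DecidableEq κ] [Fintype Q] {V : Type} [Fintype V] [DecidableEq V]
    (G : SimpleGraph V) [DecidableRel G.Adj] (hln : ∀ q, 1 ≤ ln q) :
    hom (pathGraph src tgt ln) G =
      ∑ φ : κ → V, ∏ q : Q, ((G.adjMatrix ℕ) ^ (ln q + 1)) (φ (src q)) (φ (tgt q)) := by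
  classical
  let e₁ : (pathGraph src tgt ln →g G) ≃ {f : κ ⊕ (Σ q : Q, Fin (ln q)) → V //
      ∀ x y, (pathGraph src tgt ln).Adj x y → G.Adj (f x) (f y)} :=
    { toFun := fun f => ⟨f, fun _ _ h => f.map_rel h⟩
      invFun := fun f => ⟨f.1, fun {x y} h => f.2 x y h⟩
      left_inv := fun _ => rfl
      right_inv := fun _ => rfl }
  let e₂ : {f : κ ⊕ (Σ q : Q, Fin (ln q)) → V //
      ∀ x y, (pathGraph src tgt ln).Adj x y → G.Adj (f x) (f y)} ≃
      Σ φ : κ → V, ∀ q : Q, {g : Fin (ln q) → V // IsPth G (φ (src q)) g (φ (tgt q))} :=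
    { toFun := fun f => ⟨fun x => f.1 (Sum.inl x), fun q => ⟨fun i => f.1 (Sum.inr ⟨q, i⟩),
        (hom_iff src tgt ln G hln f.1).1 f.2 q⟩⟩
      invFun := fun x => ⟨Sum.elim x.1 (fun y => (x.2 y.1).1 y.2), by
        rw [hom_iff src tgt ln G hln]
        intro q
        exact (x.2 q).2⟩
      left_inv := by
        intro f
        apply Subtype.ext
        funext x
        cases x <;> rfl
      right_inv := by
        intro x
        rfl }
  unfold hom
  rw [Nat.card_congr (e₁.trans e₂), Nat.card_sigma]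
  refine sum_congr rfl (fun φ _ => ?_)
  rw [Nat.card_pi]
  exact prod_congr rfl (fun q _ => card_pth G _ _ _)

end graph

end Pool.Agent.X249.HC
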