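import Pool.Agent.X249.HC.Gadget

/-!
# Lovász' theorem: homomorphism counts determine a graph
-/

set_option autoImplicit false

namespace Pool.Agent.X249.HC

open Finset

variable {V W : Type}

theorem hom_eq (K : SimpleGraph W) (G : SimpleGraph V) :
    hom K G = Nat.card {f : W → V // ∀ x y, K.Adj x y → G.Adj (f x) (f y)} :=
  Nat.card_congr
    { toFun := fun f => ⟨f, fun _ _ h => f.map_rel h⟩
      invFun := fun f => ⟨f.1, fun {x y} h => f.2 x y h⟩
      left_inv := fun _ => rfl
      right_inv := fun _ => rfl }

/-- Injective homomorphisms. -/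
def Inj (K : SimpleGraph W) (G : SimpleGraph V) : Type :=
  {f : W → V // Function.Injective f ∧ ∀ x y, K.Adj x y → G.Adj (f x) (f y)}

/-- Homomorphisms with a given kernel. -/
def Ker (K : SimpleGraph W) (G : SimpleGraph V) (c : W → W → Prop) : Type :=
  {f : W → V // (∀ x y, K.Adj x y → G.Adj (f x) (f y)) ∧ (fun x y => f x = f y) = c}

theorem hom_eq_sum_ker [Finite V] [Fintype W] [DecidableEq W] (K : SimpleGraph W)
    (G : SimpleGraph V) : hom K G = ∑ c : W → W → Prop, Nat.card (Ker K G c) := by
  classical
  rw [hom_eq]
  let e : {f : W → V // ∀ x y, K.Adj x y → G.Adj (f x) (f y)} ≃ Σ c : W → W → Prop, Ker K G c :=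
    { toFun := fun f => ⟨fun x y => f.1 x = f.1 y, f.1, f.2, rfl⟩
      invFun := fun x => ⟨x.2.1, x.2.2.1⟩
      left_inv := fun _ => rfl
      right_inv := by
        rintro ⟨c, f, hf, rfl⟩
        rfl }
  have : ∀ c, Finite (Ker K G c) := fun c => by unfold Ker; infer_instance
  rw [Nat.card_congr e, Nat.card_sigma]

/-- The homomorphisms with the kernel `c` are the injective homomorphisms of the quotient. -/
theorem ker_quotient (K : SimpleGraph W) (s : Setoid W) (hs : ∀ x y, K.Adj x y → ¬ s x y) :
    ∃ K' : SimpleGraph (Quotient s), ∀ (V : Type) (G : SimpleGraph V),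
      Nat.card (Ker K G (fun x y => s x y)) = Nat.card (Inj K' G) := by
  refine ⟨⟨fun a b => ∃ x y, Quotient.mk s x = a ∧ Quotient.mk s y = b ∧ K.Adj x y,
    ⟨fun a b ⟨x, y, h1, h2, h3⟩ => ⟨y, x, h2, h1, h3.symm⟩⟩, ⟨?_⟩⟩, ?_⟩
  · rintro a ⟨x, y, rfl, h2, h3⟩
    exact hs x y h3 (s.symm (Quotient.exact h2))
  · intro V G
    apply Nat.card_congr
    exact
      { toFun := fun f => ⟨Quotient.lift f.1 (fun x y h => by
            have := congrFun (congrFun f.2.2 x) y
            exact this.mpr h), by
          constructor
          · intro a b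
            induction a using Quotient.ind with
            | _ x =>
              induction b using Quotient.ind with
              | _ y =>
                intro h
                have := congrFun (congrFun f.2.2 x) y
                exact Quotient.sound (this.mp h)
          · rintro a b ⟨x, y, rfl, rfl, h⟩
            exact f.2.1 x y h⟩
        invFun := fun g => ⟨fun x => g.1 (Quotient.mk s x), fun x y h => g.2.2 _ _
            ⟨x, y, rfl, rfl, h⟩, by
          funext x y
          rw [g.2.1.eq_iff, Quotient.eq]⟩
        left_inv := fun f => rfl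
        right_inv := fun g => by
          apply Subtype.ext
          funext a
          induction a using Quotient.ind with
          | _ x => rfl }

/-- The numbers of injective homomorphisms agree. -/
theorem inj_eq [Finite V] {G H : SimpleGraph V} {n : ℕ}
    (h : ∀ (W : Type) [Finite W] (K : SimpleGraph W), Nat.card W ≤ n → hom K G = hom K H) :
    ∀ (m : ℕ) (W : Type) [Finite W] (K : SimpleGraph W), Nat.card W = m → m ≤ n →
      Nat.card (Inj K G) = Nat.card (Inj K H) := by
  classical
  intro m
  induction m using Nat.strong_induction_on with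
  | _ m ih =>
    intro W _ K hW hm
    have := Fintype.ofFinite W
    have h1 := h W K (by omega)
    rw [hom_eq_sum_ker, hom_eq_sum_ker] at h1
    have hinj : ∀ X : SimpleGraph V, Nat.card (Ker K X (fun x y => x = y)) =
        Nat.card (Inj K X) := by
      intro X
      apply Nat.card_congr
      refine Equiv.subtypeEquivRight (fun f => ?_)
      constructor
      · rintro ⟨h2, h3⟩
        refine ⟨fun x y hxy => ?_, h2⟩
        have := congrFun (congrFun h3 x) y
        exact this.mp hxy
      · rintro ⟨h2, h3⟩
        exact ⟨h3, by funext x y; exact propext h2.eq_iff⟩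
    rw [← add_sum_erase _ _ (mem_univ (fun x y : W => x = y)),
      ← add_sum_erase _ _ (mem_univ (fun x y : W => x = y)), hinj, hinj] at h1
    have h2 : ∑ c ∈ univ.erase (fun x y : W => x = y), Nat.card (Ker K G c) =
        ∑ c ∈ univ.erase (fun x y : W => x = y), Nat.card (Ker K H c) := by
      refine sum_congr rfl (fun c hc => ?_)
      have hc := (mem_erase.1 hc).1
      by_cases hex : ∃ s : Setoid W, (∀ x y, K.Adj x y → ¬ s x y) ∧ c = fun x y => s x y
      · obtain ⟨s, hs, rfl⟩ := hex
        obtain ⟨K', hK'⟩ := ker_quotient K s hs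
        rw [hK', hK']
        have hlt : Nat.card (Quotient s) < m := by
          rw [← hW]
          have hsurj : Function.Surjective (Quotient.mk s) := Quotient.mk_surjective
          refine lt_of_le_of_ne (Nat.card_le_card_of_surjective _ hsurj) ?_
          intro heq
          have hbij : Function.Bijective (Quotient.mk s) := by
            have := Fintype.ofFinite (Quotient s)
            rw [Nat.card_eq_fintype_card, Nat.card_eq_fintype_card] at heq
            exact (Fintype.bijective_iff_surjective_and_card _).2 ⟨hsurj, heq.symm⟩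
          apply hc
          funext x y
          apply propext
          constructor
          · intro hxy
            exact hbij.1 (Quotient.sound hxy)
          · rintro rfl
            exact s.refl x
        exact ih _ hlt _ K' rfl (by omega)
      · have hemp : ∀ X : SimpleGraph V, Nat.card (Ker K X c) = 0 := by
          intro X
          have : IsEmpty (Ker K X c) := by
            constructor
            rintro ⟨f, hf, rfl⟩
            exact hex ⟨Setoid.ker f, fun x y hxy hk => (hf x y hxy).ne hk, rfl⟩
          exact Nat.card_of_isEmpty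
        rw [hemp, hemp]
    omega

/-- Two finite graphs with injective homomorphisms in both directions are isomorphic. -/
theorem iso_of_inj [Finite V] {G H : SimpleGraph V} (f : Inj G H) (g : Inj H G) :
    Nonempty (G ≃g H) := by
  classical
  have := Fintype.ofFinite V
  have hf : Function.Bijective f.1 := Finite.injective_iff_bijective.1 f.2.1
  have hg : Function.Bijective g.1 := Finite.injective_iff_bijective.1 g.2.1
  let ef := Equiv.ofBijective f.1 hf
  let h : Equiv.Perm V := ef.trans (Equiv.ofBijective g.1 hg)
  have hh : ∀ x y, G.Adj x y → G.Adj (h x) (h y) := fun x y hxy => g.2.2 _ _ (f.2.2 _ _ hxy)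
  have hpow : ∀ (j : ℕ) x y, G.Adj x y → G.Adj ((h ^ j) x) ((h ^ j) y) := by
    intro j
    induction j with
    | zero => intro x y hxy; exact hxy
    | succ j ih =>
      intro x y hxy
      rw [pow_succ', Equiv.Perm.mul_apply, Equiv.Perm.mul_apply]
      exact hh _ _ (ih x y hxy)
  refine ⟨⟨ef, ?_⟩⟩
  intro x y
  constructor
  · intro hxy
    have h1 : G.Adj (h x) (h y) := g.2.2 _ _ hxy
    have h2 := hpow (orderOf h - 1) _ _ h1
    have h3 : ∀ z, (h ^ (orderOf h - 1)) (h z) = z := by
      intro z
      rw [← Equiv.Perm.mul_apply, ← pow_succ, Nat.sub_add_cancel (orderOf_pos h), pow_orderOf_eq_one]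
      rfl
    rwa [h3, h3] at h2
  · intro hxy
    exact f.2.2 x y hxy

/-- **Lovász' theorem.** -/
theorem lovasz [Finite V] {G H : SimpleGraph V}
    (h : ∀ (W : Type) [Finite W] (K : SimpleGraph W), Nat.card W ≤ Nat.card V →
      hom K G = hom K H) : Nonempty (G ≃g H) := by
  have hfin : ∀ X Y : SimpleGraph V, Finite (Inj X Y) := fun X Y => by unfold Inj; infer_instance
  have hself : ∀ X : SimpleGraph V, Nonempty (Inj X X) :=
    fun X => ⟨⟨id, Function.injective_id, fun _ _ h => h⟩⟩
  have key : ∀ X : SimpleGraph V, Nat.card (Inj X G) = Nat.card (Inj X H) := fun X =>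
    inj_eq h (Nat.card V) V X rfl le_rfl
  have h1 : 0 < Nat.card (Inj G H) := by
    rw [← key]
    exact Nat.card_pos_iff.2 ⟨hself G, hfin _ _⟩
  have h2 : 0 < Nat.card (Inj H G) := by
    rw [key]
    exact Nat.card_pos_iff.2 ⟨hself H, hfin _ _⟩
  obtain ⟨⟨f⟩, -⟩ := Nat.card_pos_iff.1 h1
  obtain ⟨⟨g⟩, -⟩ := Nat.card_pos_iff.1 h2
  exact iso_of_inj f g

/-! ### Connected graphs suffice -/

/-- Homomorphisms of a graph without edges between `S` and its complement. -/
theorem hom_split (K : SimpleGraph W) (S : Set W) (hS : ∀ x y, K.Adj x y → (x ∈ S ↔ y ∈ S))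
    (G : SimpleGraph V) : hom K G = hom (K.induce S) G * hom (K.induce Sᶜ) G := by
  classical
  rw [hom_eq, hom_eq, hom_eq, ← Nat.card_prod]
  apply Nat.card_congr
  exact
    { toFun := fun f => (⟨fun x => f.1 x, fun x y h => f.2 _ _ h⟩,
        ⟨fun x => f.1 x, fun x y h => f.2 _ _ h⟩)
      invFun := fun p => ⟨fun x => if h : x ∈ S then p.1.1 ⟨x, h⟩ else p.2.1 ⟨x, h⟩, by
        intro x y hxy
        by_cases hx : x ∈ S
        · have hy := (hS x y hxy).1 hx
          simp only [dif_pos hx, dif_pos hy]
          exact p.1.2 ⟨x, hx⟩ ⟨y, hy⟩ hxy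
        · have hy : y ∉ S := fun h => hx ((hS x y hxy).2 h)
          simp only [dif_neg hx, dif_neg hy]
          exact p.2.2 ⟨x, hx⟩ ⟨y, hy⟩ hxy⟩
      left_inv := by
        intro f
        apply Subtype.ext
        funext x
        by_cases hx : x ∈ S
        · simp [hx]
        · simp [hx]
      right_inv := by
        intro p
        apply Prod.ext
        · apply Subtype.ext
          funext x
          simp
        · apply Subtype.ext
          funext x
          have : ¬ (x : W) ∈ S := x.2
          simp [this] }

theorem hom_of_connected {G H : SimpleGraph V} {n : ℕ}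
    (h : ∀ (W : Type) [Finite W] (K : SimpleGraph W), K.Connected → Nat.card W ≤ n →
      hom K G = hom K H) :
    ∀ (m : ℕ) (W : Type) [Finite W] (K : SimpleGraph W), Nat.card W = m → m ≤ n →
      hom K G = hom K H := by
  classical
  intro m
  induction m using Nat.strong_induction_on with
  | _ m ih =>
    intro W _ K hW hm
    by_cases hc : K.Connected
    · exact h W K hc (by omega)
    rcases isEmpty_or_nonempty W with hE | ⟨⟨x₀⟩⟩
    · rw [hom_eq, hom_eq]
      have hcard : ∀ X : SimpleGraph V,
          Nat.card {f : W → V // ∀ x y, K.Adj x y → X.Adj (f x) (f y)} = 1 := by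
        intro X
        rw [Nat.card_eq_one_iff_unique]
        exact ⟨⟨fun f g => Subtype.ext (Subsingleton.elim _ _)⟩,
          ⟨⟨fun x => isEmptyElim x, fun x => isEmptyElim x⟩⟩⟩
      rw [hcard, hcard]
    · let S : Set W := {y | K.Reachable x₀ y}
      have hS : ∀ x y, K.Adj x y → (x ∈ S ↔ y ∈ S) := by
        intro x y hxy
        exact ⟨fun h1 => h1.trans hxy.reachable, fun h1 => h1.trans hxy.symm.reachable⟩
      have hne : ∃ y, y ∉ S := by
        by_contra hcon
        push Not at hcon
        apply hc
        have h1 : K.Preconnected := fun a b => (hcon a).symm.trans (hcon b)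
        have h2 : Nonempty W := ⟨x₀⟩
        exact ⟨h1⟩
      obtain ⟨y₀, hy₀⟩ := hne
      have hx₀ : x₀ ∈ S := SimpleGraph.Reachable.refl x₀
      have hsum : Nat.card S + Nat.card (Sᶜ : Set W) = m := by
        rw [← hW, ← Nat.card_sum]
        exact Nat.card_congr (Equiv.Set.sumCompl S)
      have hp1 : 0 < Nat.card S := Nat.card_pos_iff.2 ⟨⟨⟨x₀, hx₀⟩⟩, inferInstance⟩
      have hp2 : 0 < Nat.card (Sᶜ : Set W) := Nat.card_pos_iff.2 ⟨⟨⟨y₀, hy₀⟩⟩, inferInstance⟩
      rw [hom_split K S hS, hom_split K S hS]
      rw [ih (Nat.card S) (by omega) S (K.induce S) rfl (by omega),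
        ih (Nat.card (Sᶜ : Set W)) (by omega) (Sᶜ : Set W) (K.induce Sᶜ) rfl (by omega)]

end Pool.Agent.X249.HC
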