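import Pool.Agent.X249.HC.Tests

/-!
# Polynomially many homomorphism counts of polynomial-size graphs determine a graph
-/

set_option autoImplicit false

namespace Pool.Agent.X249.HC

open Finset

theorem merge {ι α : Type} [DecidableEq ι] (l : ℕ) (B : α → Prop) (P : ι → List α → Prop)
    (hmono : ∀ i L L', (∀ x ∈ L, x ∈ L') → P i L → P i L') (s : Finset ι)
    (h : ∀ i ∈ s, ∃ L : List α, L.length ≤ l ∧ (∀ x ∈ L, B x) ∧ P i L) :
    ∃ L : List α, L.length ≤ #s * l ∧ (∀ x ∈ L, B x) ∧ ∀ i ∈ s, P i L := by
  induction s using Finset.induction_on with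
  | empty => exact ⟨[], by simp, by simp, by simp⟩
  | insert a s ha ih =>
    obtain ⟨L, h1, h2, h3⟩ := ih (fun i hi => h i (mem_insert_of_mem hi))
    obtain ⟨L', h4, h5, h6⟩ := h a (mem_insert_self _ _)
    refine ⟨L' ++ L, ?_, ?_, ?_⟩
    · rw [List.length_append, card_insert_of_notMem ha, Nat.add_mul, Nat.one_mul, Nat.add_comm]
      exact Nat.add_le_add h1 h4
    · intro x hx
      rcases List.mem_append.1 hx with hx | hx
      · exact h5 x hx
      · exact h2 x hx
    · intro i hi
      rcases mem_insert.1 hi with rfl | hi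
      · exact hmono i L' _ (fun x hx => List.mem_append.2 (Or.inl hx)) h6
      · exact hmono i L _ (fun x hx => List.mem_append.2 (Or.inr hx)) (h3 i hi)

/-- The list `L` recovers the numbers of homomorphisms of the connected graphs on `κ` whose edges
are in `U` (and which have odd walks between the pairs of `U`). -/
def Recovers (n : ℕ) (κ : Type) (U : Finset (κ × κ)) (L : List (Σ N : ℕ, SimpleGraph (Fin N))) :
    Prop :=
  ∀ G H : SimpleGraph (Fin n), (∀ F ∈ L, hom F.2 G = hom F.2 H) →
    ∀ K : SimpleGraph κ, (∀ x y, K.Adj x y → (x, y) ∈ U ∨ (y, x) ∈ U) →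
      (∀ x y, (x, y) ∈ U → ∃ w : K.Walk x y, Odd w.length) → hom K G = hom K H

theorem Recovers.mono {n : ℕ} {κ : Type} {U : Finset (κ × κ)}
    {L L' : List (Σ N : ℕ, SimpleGraph (Fin N))} (h : ∀ x ∈ L, x ∈ L') (hL : Recovers n κ U L) :
    Recovers n κ U L' :=
  fun G H hGH => hL G H (fun F hF => hGH F (h F hF))

/-- The pairs of a left and a right vertex. -/
def cross (a b : ℕ) : Finset ((Fin a ⊕ Fin b) × (Fin a ⊕ Fin b)) :=
  univ.image (fun p : Fin a × Fin b => (Sum.inl p.1, Sum.inr p.2))

theorem mem_cross {a b : ℕ} (x y : Fin a ⊕ Fin b) :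
    (x, y) ∈ cross a b ↔ ∃ i j, x = Sum.inl i ∧ y = Sum.inr j := by
  unfold cross
  rw [mem_image]
  constructor
  · rintro ⟨p, -, hp⟩
    rw [Prod.mk.injEq] at hp
    exact ⟨p.1, p.2, hp.1.symm, hp.2.symm⟩
  · rintro ⟨i, j, rfl, rfl⟩
    exact ⟨(i, j), mem_univ _, rfl⟩

/-- The main result. -/
theorem main (n : ℕ) : ∃ L : List (Σ N : ℕ, SimpleGraph (Fin N)),
    L.length ≤ 18 * n ^ 4 ∧ (∀ F ∈ L, F.1 ≤ 109 * n ^ 9) ∧
      ∀ G H : SimpleGraph (Fin n), (∀ F ∈ L, hom F.2 G = hom F.2 H) → Nonempty (G ≃g H) := by
  classical
  rcases Nat.eq_zero_or_pos n with rfl | hn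
  · refine ⟨[], by simp, by simp, fun G H _ => ⟨⟨Equiv.refl _, fun {a} => a.elim0⟩⟩⟩
  · set l := 2 * n ^ 2 + 1 with hl
    obtain ⟨L₁, h11, h12, h13⟩ := merge l (fun F : (Σ N : ℕ, SimpleGraph (Fin N)) =>
      F.1 ≤ 109 * n ^ 9) (fun k L => Recovers n (Fin k) univ L)
      (fun k L L' h hL => hL.mono h) (range (n + 1)) (by
        intro k hk
        rw [mem_range] at hk
        obtain ⟨L, h1, h2, h3⟩ := type_tests (κ := Fin k) hn
          (by rw [Fintype.card_fin]; omega) univ
        exact ⟨L, h1.le, h2, h3⟩)
    obtain ⟨L₂, h21, h22, h23⟩ := merge l (fun F : (Σ N : ℕ, SimpleGraph (Fin N)) =>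
      F.1 ≤ 109 * n ^ 9) (fun (p : ℕ × ℕ) L => Recovers n (Fin p.1 ⊕ Fin p.2) (cross p.1 p.2) L)
      (fun k L L' h hL => hL.mono h)
      ((range (n + 1) ×ˢ range (n + 1)).filter (fun p => p.1 + p.2 ≤ n)) (by
        intro p hp
        rw [mem_filter] at hp
        obtain ⟨L, h1, h2, h3⟩ := type_tests (κ := Fin p.1 ⊕ Fin p.2) hn
          (by rw [Fintype.card_sum, Fintype.card_fin, Fintype.card_fin]; exact hp.2)
          (cross p.1 p.2)
        exact ⟨L, h1.le, h2, h3⟩)
    refine ⟨L₁ ++ L₂, ?_, ?_, ?_⟩
    · rw [List.length_append]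
      rw [card_range] at h11
      have h1 := (card_filter_le (range (n + 1) ×ˢ range (n + 1)) (fun p => p.1 + p.2 ≤ n))
      rw [card_product, card_range] at h1
      have h2 := h21.trans (Nat.mul_le_mul_right l h1)
      have h3 : (n + 1) * l + (n + 1) * (n + 1) * l = (n + 1) * (n + 2) * l := by ring
      have h4 : (n + 1) * (n + 2) * l ≤ (2 * n) * (3 * n) * (3 * n ^ 2) := by
        refine Nat.mul_le_mul (Nat.mul_le_mul (by omega) (by omega)) ?_
        have : 1 ≤ n ^ 2 := Nat.one_le_pow _ _ hn
        omega
      have h5 : (2 * n) * (3 * n) * (3 * n ^ 2) = 18 * n ^ 4 := by ring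
      omega
    · intro F hF
      rcases List.mem_append.1 hF with hF | hF
      · exact h12 F hF
      · exact h22 F hF
    · intro G H hGH
      have hG1 : ∀ F ∈ L₁, hom F.2 G = hom F.2 H :=
        fun F hF => hGH F (List.mem_append.2 (Or.inl hF))
      have hG2 : ∀ F ∈ L₂, hom F.2 G = hom F.2 H :=
        fun F hF => hGH F (List.mem_append.2 (Or.inr hF))
      have hconn : ∀ (W : Type) [Finite W] (K : SimpleGraph W), K.Connected → Nat.card W ≤ n →
          hom K G = hom K H := by
        intro W _ K hK hW
        have := Fintype.ofFinite W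
        rw [Nat.card_eq_fintype_card] at hW
        by_cases hb : ∃ c : W → Bool, ∀ x y, K.Adj x y → c x ≠ c y
        · obtain ⟨c, hc⟩ := hb
          let e : Fin (Fintype.card {x : W // c x = true}) ⊕
              Fin (Fintype.card {x : W // ¬ c x = true}) ≃ W :=
            (Equiv.sumCongr (Fintype.equivFin _).symm (Fintype.equivFin _).symm).trans
              (Equiv.sumCompl (fun x : W => c x = true))
          have hel : ∀ i, c (e (Sum.inl i)) = true := fun i =>
            ((Fintype.equivFin {x : W // c x = true}).symm i).2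
          have her : ∀ i, c (e (Sum.inr i)) = false := fun i => by
            have h1 : ¬ c (e (Sum.inr i)) = true :=
              ((Fintype.equivFin {x : W // ¬ c x = true}).symm i).2
            simpa using h1
          have hcard : Fintype.card {x : W // c x = true} +
              Fintype.card {x : W // ¬ c x = true} = Fintype.card W := by
            rw [← Fintype.card_sum]
            exact Fintype.card_congr (Equiv.sumCompl (fun x : W => c x = true))
          have hmem : (Fintype.card {x : W // c x = true},
              Fintype.card {x : W // ¬ c x = true}) ∈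
              (range (n + 1) ×ˢ range (n + 1)).filter (fun p => p.1 + p.2 ≤ n) := by
            rw [mem_filter, mem_product, mem_range, mem_range]
            dsimp only
            omega
          have key := h23 _ hmem G H hG2 (K.comap e) (by
            intro x y hxy
            have h1 : c (e x) ≠ c (e y) := hc _ _ hxy
            rw [mem_cross, mem_cross]
            rcases x with x | x <;> rcases y with y | y
            · rw [hel, hel] at h1
              exact absurd rfl h1
            · left
              exact ⟨x, y, rfl, rfl⟩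
            · right
              exact ⟨y, x, rfl, rfl⟩
            · rw [her, her] at h1
              exact absurd rfl h1) (by
            intro x y hxy
            obtain ⟨i, j, rfl, rfl⟩ := (mem_cross x y).1 hxy
            have hcon : (K.comap e).Connected := (SimpleGraph.Iso.comap e K).connected_iff.2 hK
            obtain ⟨w⟩ := hcon.preconnected (Sum.inl i) (Sum.inr j)
            refine ⟨w, (odd_of_bip (K := K.comap e) (c := fun x => c (e x))
              (fun x y h => hc _ _ h) w).2 ?_⟩
            rw [hel, her]
            exact Bool.noConfusion)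
          rwa [hom_comap, hom_comap] at key
        · let e := (Fintype.equivFin W).symm
          have hcon : (K.comap e).Connected := (SimpleGraph.Iso.comap e K).connected_iff.2 hK
          have key := h13 _ (mem_range.2 (Nat.lt_succ_of_le hW)) G H hG1 (K.comap e)
            (fun x y _ => Or.inl (mem_univ _))
            (fun x y _ => odd_of_not_bip hcon (by
              rintro ⟨c, hc⟩
              apply hb
              refine ⟨fun x => c (e.symm x), fun x y hxy => hc _ _ ?_⟩
              show K.Adj (e (e.symm x)) (e (e.symm y))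
              rwa [e.apply_symm_apply, e.apply_symm_apply]) x y)
          rwa [hom_comap, hom_comap] at key
      have hall := hom_of_connected hconn
      refine lovasz (fun W _ K hW => hall (Nat.card W) W K rfl ?_)
      rwa [Nat.card_eq_fintype_card (α := Fin n), Fintype.card_fin] at hW

end Pool.Agent.X249.HC
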