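import Mathlib

/-!
# The adjacency matrix is a combination of its long odd powers
-/

set_option autoImplicit false

namespace Pool.Agent.X249.HC

open Polynomial Matrix

theorem mul_eq_zero_of_pow {N : Type} [Fintype N] [DecidableEq N] {C Y : Matrix N N ℝ}
    (hC : C.IsHermitian) : ∀ k : ℕ, C ^ (k + 1) * Y = 0 → C * Y = 0 := by
  intro k
  induction k with
  | zero => intro h; simpa using h
  | succ k ih =>
    intro h
    apply ih
    have h1 : Cᴴ * C * (C ^ k * Y) = 0 := by
      rw [hC.eq, ← h, pow_succ', pow_succ']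
      simp only [Matrix.mul_assoc]
    rw [conjTranspose_mul_self_mul_eq_zero] at h1
    rw [pow_succ', Matrix.mul_assoc]
    exact h1

/-- A symmetric real matrix is a linear combination of its odd powers with large exponents. -/
theorem odd_powers {N : Type} [Fintype N] [DecidableEq N] (C : Matrix N N ℝ)
    (hC : C.IsHermitian) (s : ℕ) :
    ∃ r : ℕ → ℝ, C = ∑ l ∈ Finset.range (Fintype.card N), r l • C ^ (2 * s + 1 + 2 * l) := by
  rcases isEmpty_or_nonempty N with hE | hne
  · exact ⟨fun _ => 0, Subsingleton.elim _ _⟩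
  set B := C ^ 2 with hB
  have hχ : B.charpoly ≠ 0 := B.charpoly_monic.ne_zero
  obtain ⟨g, hg, hgX⟩ := Polynomial.exists_eq_pow_rootMultiplicity_mul_and_not_dvd B.charpoly hχ 0
  set e := B.charpoly.rootMultiplicity 0 with he
  rw [C_0, sub_zero] at hg hgX
  have hcop : IsCoprime (X ^ s : ℝ[X]) g := by
    apply IsCoprime.pow_left
    exact (irreducible_X.coprime_iff_not_dvd).2 hgX
  obtain ⟨u, w, huw⟩ := hcop
  have hg0 : g ≠ 0 := by
    rintro rfl
    exact hgX (dvd_zero _)
  -- reduce `u` modulo `g`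
  set v := u % g with hv
  have hdiv : u = g * (u / g) + v := (EuclideanDomain.div_add_mod u g).symm
  have hvw : v * X ^ s = 1 - (w + u / g * X ^ s) * g := by
    have : u * X ^ s = (g * (u / g) + v) * X ^ s := by rw [← hdiv]
    linear_combination huw - this
  have hdegg : g.natDegree ≤ Fintype.card N := by
    rw [← B.charpoly_natDegree_eq_dim, hg, natDegree_mul (pow_ne_zero _ X_ne_zero) hg0]
    omega
  have hdegv : v = 0 ∨ v.natDegree < Fintype.card N := by
    by_cases hv0 : v = 0
    · exact Or.inl hv0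
    · right
      refine lt_of_lt_of_le ?_ hdegg
      exact natDegree_lt_natDegree hv0 (by
        rw [hv]
        exact EuclideanDomain.mod_lt u hg0)
  -- the matrix identity
  have hCg : C * aeval B g = 0 := by
    have h1 : aeval B B.charpoly = 0 := aeval_self_charpoly B
    rw [hg, map_mul, map_pow, aeval_X, hB, ← pow_mul] at h1
    rcases Nat.eq_zero_or_pos e with h0 | h0
    · rw [← hB, h0, Nat.mul_zero, pow_zero, Matrix.one_mul] at h1
      rw [h1, Matrix.mul_zero]
    · obtain ⟨k, hk⟩ : ∃ k, 2 * e = k + 1 := ⟨2 * e - 1, by omega⟩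
      rw [hk] at h1
      exact mul_eq_zero_of_pow hC k h1
  have hmain : C * aeval B (v * X ^ s) = C := by
    rw [hvw, map_sub, map_one, map_mul, Matrix.mul_sub, Matrix.mul_one]
    have hcomm : aeval B (w + u / g * X ^ s) * aeval B g = aeval B g * aeval B (w + u / g * X ^ s) := by
      rw [← map_mul, ← map_mul, mul_comm]
    rw [hcomm, ← Matrix.mul_assoc, hCg, Matrix.zero_mul, sub_zero]
  refine ⟨fun l => v.coeff l, ?_⟩
  conv_lhs => rw [← hmain]
  rw [map_mul, map_pow, aeval_X]
  have hvsum : aeval B v = ∑ l ∈ Finset.range (Fintype.card N), v.coeff l • B ^ l := by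
    rcases hdegv with h0 | h0
    · rw [h0]
      simp
    · rw [aeval_eq_sum_range' h0]
  rw [hvsum, Finset.sum_mul, Finset.mul_sum]
  refine Finset.sum_congr rfl (fun l _ => ?_)
  rw [Matrix.smul_mul, Matrix.mul_smul]
  congr 1
  rw [hB, ← pow_mul, ← pow_mul, ← pow_add, ← pow_succ']
  congr 1
  ring

/-- Two graphs at the same time. -/
theorem odd_powers_pair {V : Type} [Fintype V] [DecidableEq V] (A₁ A₂ : Matrix V V ℝ)
    (h₁ : A₁.IsHermitian) (h₂ : A₂.IsHermitian) (s : ℕ) :
    ∃ r : ℕ → ℝ,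
      A₁ = ∑ l ∈ Finset.range (2 * Fintype.card V), r l • A₁ ^ (2 * s + 1 + 2 * l) ∧
      A₂ = ∑ l ∈ Finset.range (2 * Fintype.card V), r l • A₂ ^ (2 * s + 1 + 2 * l) := by
  have hC : (fromBlocks A₁ 0 0 A₂).IsHermitian := by
    rw [Matrix.IsHermitian, fromBlocks_conjTranspose, h₁.eq, h₂.eq]
    simp
  obtain ⟨r, hr⟩ := odd_powers _ hC s
  have hpow : ∀ k : ℕ, (fromBlocks A₁ 0 0 A₂) ^ k = fromBlocks (A₁ ^ k) 0 0 (A₂ ^ k) := by
    intro k
    induction k with
    | zero => simp [fromBlocks_one]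
    | succ k ih =>
      rw [pow_succ, ih, fromBlocks_multiply]
      simp [pow_succ]
  rw [Fintype.card_sum, ← two_mul] at hr
  simp only [hpow] at hr
  refine ⟨r, ?_, ?_⟩
  · ext i j
    have := congrFun (congrFun hr (Sum.inl i)) (Sum.inl j)
    rw [fromBlocks_apply₁₁] at this
    rw [this, Matrix.sum_apply, Matrix.sum_apply]
    rfl
  · ext i j
    have := congrFun (congrFun hr (Sum.inr i)) (Sum.inr j)
    rw [fromBlocks_apply₂₂] at this
    rw [this, Matrix.sum_apply, Matrix.sum_apply]
    rfl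

end Pool.Agent.X249.HC
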