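import Mathlib

/-!
# Odd walks
-/

set_option autoImplicit false

namespace Pool.Agent.X249.HC

open SimpleGraph

theorem pow_pos_iff {V : Type} [Fintype V] [DecidableEq V] (G : SimpleGraph V)
    [DecidableRel G.Adj] (n : ℕ) (u v : V) :
    0 < ((G.adjMatrix ℕ) ^ n) u v ↔ ∃ p : G.Walk u v, p.length = n := by
  rw [adjMatrix_pow_apply_eq_card_walk]
  simp only [Nat.cast_id]
  rw [Fintype.card_pos_iff, nonempty_subtype]
  rfl

/-- Walks can be made longer by two. -/
theorem walk_longer {V : Type} {G : SimpleGraph V} {u v : V} {l : ℕ} (hl : 1 ≤ l)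
    (h : ∃ p : G.Walk u v, p.length = l) (t : ℕ) : ∃ p : G.Walk u v, p.length = l + 2 * t := by
  induction t with
  | zero => simpa using h
  | succ t ih =>
    obtain ⟨p, hp⟩ := ih
    cases p with
    | nil => simp at hp; omega
    | cons hadj q =>
      refine ⟨Walk.cons hadj (Walk.cons hadj.symm (Walk.cons hadj q)), ?_⟩
      simp only [Walk.length_cons] at hp ⊢
      omega

variable {κ : Type} {K : SimpleGraph κ}

/-- The bipartite double cover. -/
def dbl (K : SimpleGraph κ) : SimpleGraph (κ × Bool) where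
  Adj p q := K.Adj p.1 q.1 ∧ p.2 ≠ q.2
  symm := ⟨fun _ _ h => ⟨h.1.symm, h.2.symm⟩⟩
  loopless := ⟨fun _ h => h.2 rfl⟩

theorem dbl_lift {x y : κ} (w : K.Walk x y) (b : Bool) :
    (dbl K).Reachable (x, b) (y, if Odd w.length then !b else b) := by
  induction w generalizing b with
  | nil => simp
  | @cons u v y h p ih =>
    have h1 : (dbl K).Adj (u, b) (v, !b) := ⟨h, by cases b <;> simp⟩
    have h2 := ih (!b)
    rw [Walk.length_cons]
    by_cases ho : Odd p.length
    · rw [if_pos ho] at h2
      have : ¬ Odd (p.length + 1) := by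
        rw [Nat.odd_add_one]
        exact fun h => h ho
      rw [if_neg this]
      simpa using h1.reachable.trans h2
    · rw [if_neg ho] at h2
      have : Odd (p.length + 1) := by
        rw [Nat.odd_add_one]
        exact ho
      rw [if_pos this]
      exact h1.reachable.trans h2

theorem dbl_project {p q : κ × Bool} (w : (dbl K).Walk p q) :
    ∃ w' : K.Walk p.1 q.1, w'.length = w.length ∧ (Odd w.length ↔ p.2 ≠ q.2) := by
  induction w with
  | nil => exact ⟨Walk.nil, rfl, by simp⟩
  | @cons u v y h t ih =>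
    obtain ⟨w', h1, h2⟩ := ih
    refine ⟨Walk.cons h.1 w', by simp [h1], ?_⟩
    rw [Walk.length_cons, Nat.odd_add_one, h2]
    have h3 := h.2
    generalize u.2 = a at *
    generalize v.2 = b at *
    generalize y.2 = c at *
    revert h3
    cases a <;> cases b <;> cases c <;> simp

/-- An odd walk can be shortened. -/
theorem short_odd [Fintype κ] {x y : κ} (w : K.Walk x y) (hw : Odd w.length) :
    ∃ w' : K.Walk x y, Odd w'.length ∧ w'.length < 2 * Fintype.card κ := by
  classical
  have h1 := dbl_lift w false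
  rw [if_pos hw] at h1
  obtain ⟨p⟩ := h1
  have h2 := p.toPath.2.length_lt
  obtain ⟨w', h3, h4⟩ := dbl_project p.toPath.1
  refine ⟨w', ?_, ?_⟩
  · rw [h3, h4]
    simp
  · rw [h3]
    rw [Fintype.card_prod, Fintype.card_bool] at h2
    omega

/-- The image of the ends of an odd walk under a homomorphism. -/
theorem hom_pos [Fintype κ] {V : Type} [Fintype V] [DecidableEq V] {G : SimpleGraph V}
    [DecidableRel G.Adj] {φ : κ → V} (hφ : ∀ x y, K.Adj x y → G.Adj (φ x) (φ y)) {x y : κ}
    (w : K.Walk x y) (hw : Odd w.length) {s l : ℕ} (hs : Fintype.card κ ≤ s) :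
    0 < ((G.adjMatrix ℕ) ^ (2 * s + 1 + 2 * l)) (φ x) (φ y) := by
  rw [pow_pos_iff]
  obtain ⟨w', h1, h2⟩ := short_odd w hw
  let f : K →g G := ⟨φ, fun {a b} h => hφ a b h⟩
  obtain ⟨j, hj⟩ := h1
  have h3 : ∃ p : G.Walk (φ x) (φ y), p.length = 2 * j + 1 :=
    ⟨w'.map f, by rw [Walk.length_map, hj]⟩
  obtain ⟨p, hp⟩ := walk_longer (by omega) h3 (s + l - j)
  exact ⟨p, by omega⟩

/-- In a connected graph which is not bipartite there are odd walks between all vertices. -/
theorem odd_of_not_bip (hK : K.Connected) (hb : ¬ ∃ c : κ → Bool, ∀ x y, K.Adj x y → c x ≠ c y)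
    (i j : κ) : ∃ w : K.Walk i j, Odd w.length := by
  classical
  by_contra hcon
  push Not at hcon
  apply hb
  refine ⟨fun x => decide (∃ w : K.Walk i x, Odd w.length), fun x y hxy heq => ?_⟩
  have heq' : (∃ w : K.Walk i x, Odd w.length) ↔ (∃ w : K.Walk i y, Odd w.length) := by
    simpa using heq
  by_cases hx : ∃ w : K.Walk i x, Odd w.length
  · obtain ⟨w₂, hw₂⟩ := heq'.1 hx
    obtain ⟨w₁, hw₁⟩ := hx
    obtain ⟨t⟩ := hK.preconnected y j
    have h1 := hcon ((w₁.concat hxy).append t)
    have h2 := hcon (w₂.append t)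
    rw [Walk.length_append, Walk.length_concat] at h1
    rw [Walk.length_append] at h2
    rw [Nat.odd_iff] at hw₁ hw₂ h1 h2
    omega
  · obtain ⟨w⟩ := hK.preconnected i x
    have h1 : ¬ Odd w.length := fun h => hx ⟨w, h⟩
    apply hx
    apply heq'.2
    refine ⟨w.concat hxy, ?_⟩
    rw [Walk.length_concat, Nat.odd_add_one]
    exact h1

/-- In a bipartite graph all walks between vertices of different colours are odd. -/
theorem odd_of_bip {c : κ → Bool} (hc : ∀ x y, K.Adj x y → c x ≠ c y) {x y : κ}
    (w : K.Walk x y) : (Odd w.length ↔ c x ≠ c y) := by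
  induction w with
  | nil => simp
  | @cons u v y h t ih =>
    rw [Walk.length_cons, Nat.odd_add_one, ih]
    have h3 := hc _ _ h
    generalize c u = a at *
    generalize c v = b at *
    generalize c y = c' at *
    revert h3
    cases a <;> cases b <;> cases c' <;> simp

end Pool.Agent.X249.HC
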