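import Pool.Agent.X249.HC.Expo
import Pool.Agent.X249.HC.Lovasz
import Pool.Agent.X249.HC.Recover
import Pool.Agent.X249.HC.Walks

/-!
# Test graphs of one type
-/

set_option autoImplicit false

namespace Pool.Agent.X249.HC

open Finset

section tests

variable {κ : Type} {d : ℕ} (src tgt : Fin d → κ) (ln : Fin d → ℕ)

/-- The graph with the core `κ` and `m j` paths with `ln j` inner vertices from `src j` to
`tgt j`. -/
def testGraph (m : Fin d → ℕ) :
    SimpleGraph (κ ⊕ (Σ q : (Σ j : Fin d, Fin (m j)), Fin (ln q.1))) :=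
  pathGraph (fun q : (Σ j : Fin d, Fin (m j)) => src q.1) (fun q => tgt q.1) (fun q => ln q.1)

variable {V : Type} [Fintype V] [DecidableEq V]

/-- The vector of the numbers of walks. -/
noncomputable def pt (G : SimpleGraph V) (φ : κ → V) : Fin d → ℕ := by
  classical
  exact fun j => ((G.adjMatrix ℕ) ^ (ln j + 1)) (φ (src j)) (φ (tgt j))

variable [Fintype κ] [DecidableEq κ]

theorem hom_test (G : SimpleGraph V) (hln : ∀ j, 1 ≤ ln j) (m : Fin d → ℕ) :
    hom (testGraph src tgt ln m) G = ∑ φ : κ → V, ∏ j, (pt src tgt ln G φ j) ^ (m j) := by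
  classical
  unfold testGraph
  rw [hom_pathGraph (fun q : (Σ j : Fin d, Fin (m j)) => src q.1) (fun q => tgt q.1)
    (fun q => ln q.1) G (fun q => hln q.1)]
  refine sum_congr rfl (fun φ _ => ?_)
  rw [Fintype.prod_sigma]
  refine prod_congr rfl (fun j _ => ?_)
  have h : ∀ y : Fin (m j), ((G.adjMatrix ℕ) ^ (ln (⟨j, y⟩ : Σ j : Fin d, Fin (m j)).1 + 1))
      (φ (src (⟨j, y⟩ : Σ j : Fin d, Fin (m j)).1)) (φ (tgt (⟨j, y⟩ : Σ j : Fin d, Fin (m j)).1)) =
      pt src tgt ln G φ j := by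
    intro y
    unfold pt
    congr!
  refine (prod_congr rfl (fun y _ => h y)).trans ?_
  rw [prod_const, card_univ, Fintype.card_fin]

/-- The number of maps with a given vector. -/
noncomputable def mu (G : SimpleGraph V) (p : Fin d → ℕ) : ℕ := #{φ : κ → V | pt src tgt ln G φ = p}

/-- All vectors. -/
noncomputable def pts (G : SimpleGraph V) : Finset (Fin d → ℕ) :=
  univ.image (fun φ : κ → V => pt src tgt ln G φ)

theorem sum_pt (G : SimpleGraph V) {I : Finset (Fin d → ℕ)} (hI : pts src tgt ln G ⊆ I)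
    (f : (Fin d → ℕ) → ℝ) (hf : ∀ p, (¬ ∀ j, 0 < p j) → f p = 0) :
    ∑ φ : κ → V, f (pt src tgt ln G φ) =
      ∑ p ∈ I.filter (fun p => ∀ j, 0 < p j), (mu src tgt ln G p : ℝ) * f p := by
  rw [← sum_fiberwise_of_maps_to (g := fun φ : κ → V => pt src tgt ln G φ) (t := I)
    (fun φ _ => hI (mem_image_of_mem _ (mem_univ φ)))]
  rw [sum_filter_of_ne]
  · refine sum_congr rfl (fun p _ => ?_)
    rw [mu, ← nsmul_eq_mul, ← sum_const]
    exact sum_congr rfl (fun φ hφ => by rw [(mem_filter.1 hφ).2])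
  · intro p _ hne
    by_contra hcon
    exact hne (by rw [hf p hcon, mul_zero])

theorem few_bad (G H : SimpleGraph V) (hln : ∀ j, 1 ≤ ln j) {p : Fin d → ℕ}
    (hp : ∀ j, 0 < p j) (hne : mu src tgt ln G p ≠ mu src tgt ln H p) (M : ℕ) :
    #{m : Fin d → Fin M | hom (testGraph src tgt ln (fun j => m j + 1)) G =
        hom (testGraph src tgt ln (fun j => m j + 1)) H} * M ≤
      d * (2 * Fintype.card V ^ 2) * M ^ d := by
  classical
  set I := pts src tgt ln G ∪ pts src tgt ln H with hI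
  set P := I.filter (fun p => ∀ j, 0 < p j) with hP
  let κ' : (Fin d → ℕ) → ℝ := fun p =>
    ((mu src tgt ln G p : ℝ) - mu src tgt ln H p) * ∏ j, (p j : ℝ)
  have hmem : p ∈ P := by
    rw [hP, mem_filter]
    refine ⟨?_, hp⟩
    rw [hI, mem_union]
    by_contra hcon
    push Not at hcon
    have h0 : ∀ X : SimpleGraph V, p ∉ pts src tgt ln X → mu src tgt ln X p = 0 := by
      intro X hX
      rw [mu, card_eq_zero, filter_eq_empty_iff]
      intro φ _ h
      exact hX (mem_image.2 ⟨φ, mem_univ _, h⟩)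
    exact hne (by rw [h0 G hcon.1, h0 H hcon.2])
  have hsum : ∀ m : Fin d → Fin M,
      (hom (testGraph src tgt ln (fun j => m j + 1)) G : ℝ) -
        hom (testGraph src tgt ln (fun j => m j + 1)) H =
      ∑ p ∈ P, κ' p * ∏ j, ((p j : ℕ) : ℝ) ^ ((m j : ℕ)) := by
    intro m
    have hf : ∀ p : Fin d → ℕ, (¬ ∀ j, 0 < p j) →
        ((∏ j, (p j) ^ ((m j : ℕ) + 1) : ℕ) : ℝ) = 0 := by
      intro q hq
      push Not at hq
      obtain ⟨j, hj⟩ := hq
      have : q j = 0 := by omega
      rw [Nat.cast_eq_zero]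
      exact prod_eq_zero (mem_univ j) (by rw [this]; exact zero_pow (Nat.succ_ne_zero _))
    rw [hom_test src tgt ln G hln, hom_test src tgt ln H hln]
    push_cast
    have h1 := sum_pt src tgt ln G (I := I) subset_union_left
      (fun p => ((∏ j, (p j) ^ ((m j : ℕ) + 1) : ℕ) : ℝ)) hf
    have h2 := sum_pt src tgt ln H (I := I) subset_union_right
      (fun p => ((∏ j, (p j) ^ ((m j : ℕ) + 1) : ℕ) : ℝ)) hf
    push_cast at h1 h2
    rw [h1, h2, ← sum_sub_distrib]
    refine sum_congr rfl (fun q _ => ?_)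
    simp only [κ']
    rw [← sub_mul, mul_assoc, ← prod_mul_distrib]
    congr 1
    refine prod_congr rfl (fun j _ => ?_)
    rw [pow_succ]
    ring
  have hcard := card_zeros_multi M (2 * Fintype.card V ^ 2) d P κ'
    (fun q hq => (mem_filter.1 hq).2)
    ⟨p, hmem, by
      simp only [κ']
      refine mul_ne_zero ?_ ?_
      · rw [sub_ne_zero]
        exact_mod_cast hne
      · exact (prod_pos (fun j _ => by exact_mod_cast hp j)).ne'⟩
    (by
      intro j
      have h1 : P.image (fun p => p j) ⊆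
          (univ : Finset (V × V)).image (fun x => ((G.adjMatrix ℕ) ^ (ln j + 1)) x.1 x.2) ∪
          (univ : Finset (V × V)).image (fun x => ((H.adjMatrix ℕ) ^ (ln j + 1)) x.1 x.2) := by
        intro v hv
        obtain ⟨q, hq, rfl⟩ := mem_image.1 hv
        have h2 := (mem_filter.1 hq).1
        rw [hI, mem_union] at h2
        rw [mem_union]
        rcases h2 with h2 | h2
        · obtain ⟨φ, -, rfl⟩ := mem_image.1 h2
          left
          refine mem_image.2 ⟨(φ (src j), φ (tgt j)), mem_univ _, ?_⟩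
          unfold pt
          congr!
        · obtain ⟨φ, -, rfl⟩ := mem_image.1 h2
          right
          refine mem_image.2 ⟨(φ (src j), φ (tgt j)), mem_univ _, ?_⟩
          unfold pt
          congr!
      refine (card_le_card h1).trans ((card_union_le _ _).trans ?_)
      have h3 : #(univ : Finset (V × V)) = Fintype.card V ^ 2 := by
        rw [card_univ, Fintype.card_prod, pow_two]
      have h4 := card_image_le (s := (univ : Finset (V × V)))
        (f := fun x => ((G.adjMatrix ℕ) ^ (ln j + 1)) x.1 x.2)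
      have h5 := card_image_le (s := (univ : Finset (V × V)))
        (f := fun x => ((H.adjMatrix ℕ) ^ (ln j + 1)) x.1 x.2)
      omega)
  refine le_trans (Nat.mul_le_mul_right _ (card_le_card ?_)) hcard
  intro m hm
  rw [mem_filter] at hm ⊢
  refine ⟨mem_univ _, ?_⟩
  rw [← hsum, sub_eq_zero]
  exact_mod_cast hm.2

/-- The number of labelled graphs. -/
theorem card_graphs (n : ℕ) [Fintype (SimpleGraph (Fin n))] :
    Fintype.card (SimpleGraph (Fin n)) ≤ 2 ^ n ^ 2 := by
  classical
  have h := Fintype.card_le_of_injective (fun G : SimpleGraph (Fin n) => G.Adj)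
    (fun G H h => SimpleGraph.ext h)
  refine h.trans_eq ?_
  rw [Fintype.card_fun, Fintype.card_fun, Fintype.card_fin, Fintype.card_prop, ← pow_mul, pow_two]

/-- Few test graphs suffice. -/
theorem exists_tests (n : ℕ) (hln : ∀ j, 1 ≤ ln j) :
    ∃ L : List (Fin d → ℕ), L.length = 2 * n ^ 2 + 1 ∧
      (∀ m ∈ L, ∀ j, m j ≤ 2 * (d * (2 * n ^ 2)) + 1) ∧
      ∀ G H : SimpleGraph (Fin n), (∀ m ∈ L, hom (testGraph src tgt ln m) G =
        hom (testGraph src tgt ln m) H) →
        ∀ p : Fin d → ℕ, (∀ j, 0 < p j) → mu src tgt ln G p = mu src tgt ln H p := by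
  classical
  have : Fintype (SimpleGraph (Fin n)) := Fintype.ofFinite _
  set D := d * (2 * n ^ 2) with hD
  set M := 2 * D + 1 with hM
  set r := 2 * n ^ 2 + 1 with hr
  let Bad : SimpleGraph (Fin n) × SimpleGraph (Fin n) → Finset (Fin d → Fin M) := fun x =>
    {m : Fin d → Fin M | hom (testGraph src tgt ln (fun j => m j + 1)) x.1 =
        hom (testGraph src tgt ln (fun j => m j + 1)) x.2}
  let Prs : Finset (SimpleGraph (Fin n) × SimpleGraph (Fin n)) :=
    {x | ∃ p : Fin d → ℕ, (∀ j, 0 < p j) ∧ mu src tgt ln x.1 p ≠ mu src tgt ln x.2 p}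
  have hbad : ∀ x ∈ Prs, 2 * #(Bad x) ≤ M ^ d := by
    intro x hx
    obtain ⟨p, hp, hne⟩ := (mem_filter.1 hx).2
    have h1 := few_bad src tgt ln x.1 x.2 hln hp hne M
    rw [Fintype.card_fin, ← hD] at h1
    have h2 : #(Bad x) * M ≤ D * M ^ d := h1
    rcases Nat.eq_zero_or_pos D with h0 | h0
    · rw [h0, Nat.zero_mul] at h2
      have : #(Bad x) = 0 := by
        rcases Nat.mul_eq_zero.1 (Nat.le_zero.1 h2) with h | h
        · exact h
        · omega
      omega
    · have h3 : D * (2 * #(Bad x)) ≤ D * M ^ d := by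
        calc D * (2 * #(Bad x)) = #(Bad x) * (2 * D) := by ring
          _ ≤ #(Bad x) * M := Nat.mul_le_mul_left _ (by omega)
          _ ≤ D * M ^ d := h2
      exact Nat.le_of_mul_le_mul_left h3 h0
  obtain ⟨t, ht⟩ : ∃ t : Fin r → (Fin d → Fin M), ∀ x ∈ Prs, ∃ i, t i ∉ Bad x := by
    by_contra hcon
    push Not at hcon
    have hsub : (univ : Finset (Fin r → (Fin d → Fin M))) ⊆
        Prs.biUnion (fun x => Fintype.piFinset (fun _ => Bad x)) := by
      intro t _
      obtain ⟨x, hx, h⟩ := hcon t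
      exact mem_biUnion.2 ⟨x, hx, Fintype.mem_piFinset.2 h⟩
    have h1 := (card_le_card hsub).trans card_biUnion_le
    rw [card_univ, Fintype.card_fun, Fintype.card_fun, Fintype.card_fin, Fintype.card_fin,
      Fintype.card_fin] at h1
    have h2 : ∀ x ∈ Prs, #(Fintype.piFinset (fun _ : Fin r => Bad x)) = #(Bad x) ^ r := by
      intro x _
      rw [Fintype.card_piFinset_const]
    rw [sum_congr rfl h2] at h1
    have h3 : 2 ^ r * (M ^ d) ^ r ≤ 2 ^ (2 * n ^ 2) * (M ^ d) ^ r := by
      calc 2 ^ r * (M ^ d) ^ r ≤ 2 ^ r * ∑ x ∈ Prs, #(Bad x) ^ r := Nat.mul_le_mul_left _ h1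
        _ = ∑ x ∈ Prs, (2 * #(Bad x)) ^ r := by
            rw [mul_sum]
            exact sum_congr rfl (fun x _ => by rw [mul_pow])
        _ ≤ ∑ _x ∈ Prs, (M ^ d) ^ r := sum_le_sum (fun x hx => Nat.pow_le_pow_left (hbad x hx) _)
        _ = #Prs * (M ^ d) ^ r := by rw [sum_const, smul_eq_mul]
        _ ≤ 2 ^ (2 * n ^ 2) * (M ^ d) ^ r := by
            refine Nat.mul_le_mul_right _ ((card_le_univ _).trans ?_)
            rw [Fintype.card_prod, two_mul, pow_add]
            exact Nat.mul_le_mul (card_graphs n) (card_graphs n)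
    have h4 : 2 ^ r ≤ 2 ^ (2 * n ^ 2) :=
      Nat.le_of_mul_le_mul_right h3 (by positivity)
    have h5 := (Nat.pow_le_pow_iff_right (by norm_num : 1 < 2)).1 h4
    omega
  refine ⟨List.ofFn (fun i => fun j => (t i j : ℕ) + 1), by rw [List.length_ofFn], ?_, ?_⟩
  · intro m hm j
    obtain ⟨i, rfl⟩ := List.mem_ofFn.1 hm
    have := (t i j).2
    show (t i j : ℕ) + 1 ≤ 2 * D + 1
    omega
  · intro G H hGH p hp
    by_contra hne
    obtain ⟨i, hi⟩ := ht (G, H) (mem_filter.2 ⟨mem_univ _, p, hp, hne⟩)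
    apply hi
    rw [mem_filter]
    exact ⟨mem_univ _, hGH _ (List.mem_ofFn.2 ⟨i, rfl⟩)⟩

end tests

/-! ### Graphs with the vertices `0, ..., N - 1` -/

/-- The same graph on `Fin N`. -/
noncomputable def toFin {W : Type} [Fintype W] (F : SimpleGraph W) : Σ N : ℕ, SimpleGraph (Fin N) :=
  ⟨Fintype.card W, F.comap (Fintype.equivFin W).symm⟩

theorem hom_comap {W W' V : Type} (e : W' ≃ W) (F : SimpleGraph W) (G : SimpleGraph V) :
    hom (F.comap e) G = hom F G := by
  rw [hom_eq, hom_eq]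
  apply Nat.card_congr
  exact
    { toFun := fun f => ⟨fun x => f.1 (e.symm x), fun x y h => f.2 _ _ (by simpa using h)⟩
      invFun := fun f => ⟨fun x => f.1 (e x), fun x y h => f.2 _ _ h⟩
      left_inv := fun f => by apply Subtype.ext; funext x; simp
      right_inv := fun f => by apply Subtype.ext; funext x; simp }

theorem hom_toFin {W V : Type} [Fintype W] (F : SimpleGraph W) (G : SimpleGraph V) :
    hom (toFin F).2 G = hom F G := hom_comap _ F G

/-- The tests of one type. -/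
theorem type_tests {κ : Type} [Fintype κ] [DecidableEq κ] {n : ℕ} (hn : 1 ≤ n)
    (hκ : Fintype.card κ ≤ n) (U : Finset (κ × κ)) :
    ∃ L : List (Σ N : ℕ, SimpleGraph (Fin N)), L.length = 2 * n ^ 2 + 1 ∧
      (∀ F ∈ L, F.1 ≤ 109 * n ^ 9) ∧
      ∀ G H : SimpleGraph (Fin n), (∀ F ∈ L, hom F.2 G = hom F.2 H) →
        ∀ K : SimpleGraph κ, (∀ x y, K.Adj x y → (x, y) ∈ U ∨ (y, x) ∈ U) →
          (∀ x y, (x, y) ∈ U → ∃ w : K.Walk x y, Odd w.length) → hom K G = hom K H := by
  classical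
  let e := (Fintype.equivFin (U × Fin (2 * n))).symm
  set d := Fintype.card (U × Fin (2 * n)) with hd
  let src : Fin d → κ := fun j => (e j).1.1.1
  let tgt : Fin d → κ := fun j => (e j).1.1.2
  let ln : Fin d → ℕ := fun j => 2 * n + 2 * (e j).2
  have hln : ∀ j, 1 ≤ ln j := fun j => by simp only [ln]; omega
  obtain ⟨L₀, h1, h2, h3⟩ := exists_tests src tgt ln n hln
  have hU : #U ≤ n ^ 2 := by
    refine (card_le_univ U).trans ?_
    rw [Fintype.card_prod, pow_two]
    exact Nat.mul_le_mul hκ hκ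
  have hdle : d ≤ 2 * n ^ 3 := by
    rw [hd, Fintype.card_prod, Fintype.card_fin, Fintype.card_coe]
    calc #U * (2 * n) ≤ n ^ 2 * (2 * n) := Nat.mul_le_mul_right _ hU
      _ = 2 * n ^ 3 := by ring
  refine ⟨L₀.map (fun m => toFin (testGraph src tgt ln m)), by rw [List.length_map, h1], ?_, ?_⟩
  · intro F hF
    obtain ⟨m, hm, rfl⟩ := List.mem_map.1 hF
    show Fintype.card (κ ⊕ (Σ q : (Σ j : Fin d, Fin (m j)), Fin (ln q.1))) ≤ _
    rw [Fintype.card_sum, Fintype.card_sigma, Fintype.sum_sigma]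
    have h4 : ∀ j : Fin d, ∑ i : Fin (m j), Fintype.card (Fin (ln j)) ≤ 9 * n ^ 5 * (6 * n) := by
      intro j
      rw [sum_const, card_univ, Fintype.card_fin, Fintype.card_fin, smul_eq_mul]
      refine Nat.mul_le_mul ?_ ?_
      · refine (h2 m hm j).trans ?_
        have h5 : d * (2 * n ^ 2) ≤ 2 * n ^ 3 * (2 * n ^ 2) := Nat.mul_le_mul_right _ hdle
        have h6 : 1 ≤ n ^ 5 := Nat.one_le_pow _ _ hn
        have h7 : 2 * n ^ 3 * (2 * n ^ 2) = 4 * n ^ 5 := by ring
        omega
      · have := (e j).2.2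
        simp only [ln]
        omega
    have h5 : ∑ j : Fin d, ∑ i : Fin (m j), Fintype.card (Fin (ln j)) ≤
        2 * n ^ 3 * (9 * n ^ 5 * (6 * n)) := by
      refine (sum_le_card_nsmul _ _ _ (fun j _ => h4 j)).trans ?_
      rw [card_univ, Fintype.card_fin, smul_eq_mul]
      exact Nat.mul_le_mul_right _ hdle
    have h6 : 2 * n ^ 3 * (9 * n ^ 5 * (6 * n)) = 108 * n ^ 9 := by ring
    have h7 : n ≤ n ^ 9 := Nat.le_self_pow (by norm_num) n
    have h8 : ∑ j : Fin d, ∑ i : Fin (m j), Fintype.card (Fin (ln (⟨j, i⟩ : Σ j : Fin d, Fin (m j)).1)) ≤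
        2 * n ^ 3 * (9 * n ^ 5 * (6 * n)) := h5
    omega
  · intro G H hGH K hKU hodd
    have hmu := h3 G H (fun m hm => by
      have := hGH _ (List.mem_map.2 ⟨m, hm, rfl⟩)
      rwa [hom_toFin, hom_toFin] at this)
    -- recover the adjacency matrices
    have hherm : ∀ X : SimpleGraph (Fin n), (X.adjMatrix ℝ).IsHermitian := by
      intro X
      rw [Matrix.IsHermitian, Matrix.conjTranspose_eq_transpose_of_trivial]
      exact SimpleGraph.transpose_adjMatrix X
    obtain ⟨r, hrG, hrH⟩ := odd_powers_pair (G.adjMatrix ℝ) (H.adjMatrix ℝ) (hherm G) (hherm H) n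
    rw [Fintype.card_fin] at hrG hrH
    let Ψ : (Fin d → ℕ) → Prop := fun p => ∀ u : U, K.Adj u.1.1 u.1.2 →
      ∑ l : Fin (2 * n), r l * (p (e.symm (u, l)) : ℝ) = 1
    have hrec : ∀ X : SimpleGraph (Fin n),
        X.adjMatrix ℝ = ∑ l ∈ range (2 * n), r l • (X.adjMatrix ℝ) ^ (2 * n + 1 + 2 * l) →
        ∀ (φ : κ → Fin n) (u : U),
          (X.adjMatrix ℝ) (φ u.1.1) (φ u.1.2) =
            ∑ l : Fin (2 * n), r l * (pt src tgt ln X φ (e.symm (u, l)) : ℝ) := by
      intro X hX φ u
      conv_lhs => rw [hX]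
      rw [Matrix.sum_apply, ← Fin.sum_univ_eq_sum_range
        (fun l => (r l • (X.adjMatrix ℝ) ^ (2 * n + 1 + 2 * l)) (φ u.1.1) (φ u.1.2))]
      refine sum_congr rfl (fun l _ => ?_)
      rw [Matrix.smul_apply, smul_eq_mul]
      congr 1
      have hpow : ∀ k : ℕ, (X.adjMatrix ℝ) ^ k =
          ((X.adjMatrix ℕ) ^ k).map (fun x : ℕ => (x : ℝ)) := by
        intro k
        have h5 : X.adjMatrix ℝ = (X.adjMatrix ℕ).map (Nat.castRingHom ℝ) := by
          ext a b
          simp [SimpleGraph.adjMatrix_apply, apply_ite]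
        rw [h5]
        exact (Matrix.map_pow (X.adjMatrix ℕ) (Nat.castRingHom ℝ) k).symm
      have h6 : pt src tgt ln X φ (e.symm (u, l)) =
          ((X.adjMatrix ℕ) ^ (2 * n + 1 + 2 * (l : ℕ))) (φ u.1.1) (φ u.1.2) := by
        simp only [pt, src, tgt, ln, Equiv.apply_symm_apply]
        rw [show 2 * n + 2 * (l : ℕ) + 1 = 2 * n + 1 + 2 * (l : ℕ) by ring]
      rw [hpow, h6, Matrix.map_apply]
    have hiff : ∀ X : SimpleGraph (Fin n),
        X.adjMatrix ℝ = ∑ l ∈ range (2 * n), r l • (X.adjMatrix ℝ) ^ (2 * n + 1 + 2 * l) →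
        ∀ φ : κ → Fin n, (∀ x y, K.Adj x y → X.Adj (φ x) (φ y)) ↔
          (Ψ (pt src tgt ln X φ) ∧ ∀ j, 0 < pt src tgt ln X φ j) := by
      intro X hX φ
      constructor
      · intro hφ
        refine ⟨?_, ?_⟩
        · intro u hu
          rw [← hrec X hX φ u, SimpleGraph.adjMatrix_apply, if_pos (hφ _ _ hu)]
        · intro j
          obtain ⟨w, hw⟩ := hodd (e j).1.1.1 (e j).1.1.2 (e j).1.2
          have h5 := hom_pos hφ w hw (s := n) (l := ((e j).2 : ℕ)) hκ
          have h6 : pt src tgt ln X φ j =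
              ((X.adjMatrix ℕ) ^ (2 * n + 1 + 2 * ((e j).2 : ℕ))) (φ (e j).1.1.1)
                (φ (e j).1.1.2) := by
            simp only [pt, src, tgt, ln]
            rw [show 2 * n + 2 * ((e j).2 : ℕ) + 1 = 2 * n + 1 + 2 * ((e j).2 : ℕ) by ring]
          rw [h6]
          convert h5
      · rintro ⟨hΨ, -⟩ x y hxy
        have key : ∀ x y, K.Adj x y → (x, y) ∈ U → X.Adj (φ x) (φ y) := by
          intro x y hxy hU
          have h5 := hΨ ⟨(x, y), hU⟩ hxy
          rw [← hrec X hX φ ⟨(x, y), hU⟩, SimpleGraph.adjMatrix_apply] at h5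
          by_contra hcon
          rw [if_neg hcon] at h5
          exact absurd h5 (by norm_num)
        rcases hKU x y hxy with h5 | h5
        · exact key x y hxy h5
        · exact (key y x hxy.symm h5).symm
    set I := pts src tgt ln G ∪ pts src tgt ln H with hI
    have hcount : ∀ X : SimpleGraph (Fin n), pts src tgt ln X ⊆ I →
        X.adjMatrix ℝ = ∑ l ∈ range (2 * n), r l • (X.adjMatrix ℝ) ^ (2 * n + 1 + 2 * l) →
        hom K X = ∑ p ∈ I.filter (fun p => Ψ p ∧ ∀ j, 0 < p j), mu src tgt ln X p := by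
      intro X hXI hX
      rw [hom_eq, Nat.card_eq_fintype_card, Fintype.card_subtype]
      rw [card_eq_sum_card_fiberwise (f := fun φ : κ → Fin n => pt src tgt ln X φ)
        (t := I.filter (fun p => Ψ p ∧ ∀ j, 0 < p j))]
      · refine sum_congr rfl (fun p hp => ?_)
        rw [mu]
        congr 1
        ext φ
        simp only [mem_filter, mem_univ, true_and]
        constructor
        · exact fun h => h.2
        · intro h
          refine ⟨(hiff X hX φ).2 ?_, h⟩
          rw [h]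
          exact (mem_filter.1 hp).2
      · intro φ hφ
        have h5 := (mem_filter.1 (mem_coe.1 hφ)).2
        rw [mem_coe, mem_filter]
        exact ⟨hXI (mem_image_of_mem _ (mem_univ φ)), (hiff X hX φ).1 h5⟩
    rw [hcount G subset_union_left hrG, hcount H subset_union_right hrH]
    exact sum_congr rfl (fun p hp => hmu p (mem_filter.1 hp).2.2)

end Pool.Agent.X249.HC
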